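import Pool.Agent.Lib.MP_5349a4_pr.M.Iface1
import Pool.Agent.Lib.MP_5349a4_pr.M.Base

/-!
# REVA, part 1: joining, exploration and two-point Mecke formula
-/

set_option autoImplicit false
open MeasureTheory Set
open scoped ENNReal NNReal

namespace Pool.Agent.Lib.MP_5349a4_pr.H31

variable {E : Type} [MeasurableSpace E]

theorem nsc_add (ρ σ : Measure E) [NullSingletonClass ρ] [NullSingletonClass σ] :
    NullSingletonClass (ρ + σ) := by
  constructor
  intro x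
  rw [Measure.add_apply, measure_singleton, measure_singleton, add_zero]

/-- removing a point is realised by a measurable map -/
theorem exists_remove (hMR : MRestrStatement) [StandardBorelSpace E] :
    ∃ r : E × Cfg E → Cfg E, Measurable r ∧ ∀ p ω, pt (r (p, ω)) = pt ω \ {p} := by
  obtain ⟨r, hr, hr'⟩ := hMR E E {q : E × E | q.2 ≠ q.1}
    (measurableSet_eq_fun measurable_snd measurable_fst).compl
  refine ⟨r, hr, fun p ω => ?_⟩
  rw [hr']
  rfl

/-- the points of a second configuration not adjacent to the cluster in the first one -/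
theorem exists_thin (hMR : MRestrStatement) (hConM : ConMStatement) [StandardBorelSpace E]
    (adj : E → E → Prop) (hadj : MAdj adj) (x : E) :
    ∃ r : Cfg E × Cfg E → Cfg E, Measurable r ∧
      ∀ ω ω', pt (r (ω, ω')) = {e | e ∈ pt ω' ∧ ¬ Con adj (pt ω) x e} := by
  have h1 := (hConM E adj hadj).1
  have h2 : MeasurableSet {q : Cfg E × E | ¬ Con adj (pt q.1) x q.2} := by
    have : Measurable fun q : Cfg E × E => ((x, q.2, q.1) : E × E × Cfg E) :=
      measurable_const.prodMk (measurable_snd.prodMk measurable_fst)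
    exact (this h1).compl
  obtain ⟨r, hr, hr'⟩ := hMR (Cfg E) E _ h2
  exact ⟨r, hr, hr'⟩

theorem measurable_lint {α β : Type*} [MeasurableSpace α] [MeasurableSpace β] {ν : Measure β}
    [SFinite ν] {f : α → β → ℝ≥0∞} (hf : Measurable fun q : α × β => f q.1 q.2) :
    Measurable fun a => ∫⁻ b, f a b ∂ν := hf.lintegral_prod_right'

theorem join (hSuper : SuperStatement) (hRes : ResStatement) (hProb : ProbStatement)
    (hMO : MOpsStatement) (ρ₁ ρ₂ : Measure E)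
    [IsFiniteMeasure ρ₁] [IsFiniteMeasure ρ₂] (D : Set E) (hD : MeasurableSet D)
    (h : Set E → ℝ≥0∞) (hh : CM h) :
    ∫⁻ ω₁, ∫⁻ ω₂, h ((pt ω₁ ∩ D) ∪ pt ω₂) ∂PL ρ₂ ∂PL ρ₁
      = ∫⁻ ω, h (pt ω) ∂PL (ρ₁.restrict D + ρ₂) := by
  have := (hProb E ρ₂).1
  obtain ⟨a, ha, ha'⟩ := hMO.1 E
  rw [hSuper E (ρ₁.restrict D) ρ₂ h hh]
  have hF : CM fun P : Set E => ∫⁻ ω₂, h (P ∪ pt ω₂) ∂PL ρ₂ := by
    refine measurable_lint (f := fun ω ω₂ => h (pt ω ∪ pt ω₂)) ?_
    have : (fun q : Cfg E × Cfg E => h (pt q.1 ∪ pt q.2)) =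
        fun q : Cfg E × Cfg E => h (pt (a q)) := by
      funext q
      rw [← ha' q.1 q.2]
    rw [this]
    exact hh.comp ha
  exact (hRes E ρ₁ D hD).1 _ hF

theorem con_clus (hClb : ClbStatement) (adj : E → E → Prop) (P : Set E) (x z : E) :
    Con adj (clus adj P x) x z ↔ Con adj P x z := by
  have h := (hClb E adj P (clus adj P x) x z).2.2.2.2.1
  have h1 : {e | e ∈ clus adj P x ∧ Con adj P x e} = {e | e ∈ P ∧ Con adj P x e} := by
    ext e
    constructor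
    · exact fun he => he.1
    · exact fun he => ⟨he, he.2⟩
  have h2 := (h h1).1
  unfold Con
  rw [h2]

theorem expl2 (hExpl : ExplStatement) (hSuper : SuperStatement) (hRes : ResStatement)
    (hProb : ProbStatement) (hMO : MOpsStatement) (hConM : ConMStatement)
    [StandardBorelSpace E] (ρ₁ ρ₂ : Measure E)
    [IsFiniteMeasure ρ₁] [IsFiniteMeasure ρ₂] [NullSingletonClass ρ₁] (adj : E → E → Prop)
    (hadj : MAdj adj) (x : E) (K : Set E → Set E → ℝ≥0∞)
    (hK : Measurable fun q : Cfg E × Cfg E => K (pt q.1) (pt q.2))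
    (hKc : ∀ P Q, K (clus adj P x) Q = K P Q) :
    ∫⁻ ω₁, ∫⁻ ω₂, K (pt ω₁) ({e | e ∈ pt ω₁ ∧ ¬ Con adj (pt ω₁) x e} ∪ pt ω₂) ∂PL ρ₂ ∂PL ρ₁
      = ∫⁻ ω₁, ∫⁻ ω, K (pt ω₁) (pt ω) ∂PL (ρ₁.restrict {e | ¬ Con adj (pt ω₁) x e} + ρ₂)
          ∂PL ρ₁ := by
  have := (hProb E ρ₂).1
  obtain ⟨a, ha, ha'⟩ := hMO.1 E
  have h1 := (hConM E adj hadj).1
  have hF : Measurable fun q : Cfg E × Cfg E => ∫⁻ ω₂, K (pt q.1) (pt q.2 ∪ pt ω₂) ∂PL ρ₂ := by
    refine measurable_lint (f := fun (q : Cfg E × Cfg E) ω₂ => K (pt q.1) (pt q.2 ∪ pt ω₂)) ?_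
    have : (fun q : (Cfg E × Cfg E) × Cfg E => K (pt q.1.1) (pt q.1.2 ∪ pt q.2)) =
        fun q : (Cfg E × Cfg E) × Cfg E => K (pt q.1.1) (pt (a (q.1.2, q.2))) := by
      funext q
      rw [← ha' q.1.2 q.2]
    rw [this]
    exact hK.comp ((measurable_fst.comp measurable_fst).prodMk
      (ha.comp ((measurable_snd.comp measurable_fst).prodMk measurable_snd)))
  have h2 := hExpl E ρ₁ adj x (fun A B => ∫⁻ ω₂, K A (B ∪ pt ω₂) ∂PL ρ₂) hadj hF
  have h3 : ∫⁻ ω₁, ∫⁻ ω₂, K (pt ω₁) ({e | e ∈ pt ω₁ ∧ ¬ Con adj (pt ω₁) x e} ∪ pt ω₂)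
      ∂PL ρ₂ ∂PL ρ₁ = ∫⁻ ω₁, ∫⁻ ω₂, K (clus adj (pt ω₁) x)
        ({e | e ∈ pt ω₁ ∧ ¬ Con adj (pt ω₁) x e} ∪ pt ω₂) ∂PL ρ₂ ∂PL ρ₁ := by
    refine lintegral_congr fun ω₁ => lintegral_congr fun ω₂ => ?_
    rw [hKc]
  rw [h3]
  refine h2.trans (lintegral_congr fun ω₁ => ?_)
  have hD : MeasurableSet {e | ¬ Con adj (pt ω₁) x e} := by
    have : Measurable fun e : E => ((x, e, ω₁) : E × E × Cfg E) :=
      measurable_const.prodMk (measurable_id.prodMk measurable_const)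
    exact (this h1).compl
  have hh : CM (K (pt ω₁)) :=
    hK.comp (measurable_const.prodMk measurable_id)
  rw [← join hSuper hRes hProb hMO ρ₁ ρ₂ _ hD _ hh]
  refine lintegral_congr fun ω₁' => lintegral_congr fun ω₂ => ?_
  rw [hKc]
  rfl

theorem tsum_pairs (P : Set E) (S : E → E → Set E → ℝ≥0∞) :
    ∑' z : P, ∑' z' : P, ind ((z : E) ≠ z') * S z z' (P \ {(z : E), (z' : E)})
      = ∑' z : P, ∑' z' : (P \ {(z : E)} : Set E),
          S z z' ((P \ {(z : E)}) \ {(z' : E)}) := by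
  refine tsum_congr fun z => ?_
  rw [tsum_subtype P (fun z' => ind ((z : E) ≠ z') * S z z' (P \ {(z : E), z'})),
    tsum_subtype (P \ {(z : E)}) (fun z' => S z z' ((P \ {(z : E)}) \ {z'}))]
  refine tsum_congr fun e => ?_
  by_cases he : e ∈ P
  · by_cases hze : (z : E) = e
    · rw [indicator_of_mem he, ind_not (by simpa using hze), zero_mul, indicator_of_notMem]
      simp [hze]
    · rw [indicator_of_mem he, ind_of hze, one_mul, indicator_of_mem]
      · rw [sdiff_sdiff]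
        rfl
      · exact ⟨he, fun h => hze h.symm⟩
  · rw [indicator_of_notMem he, indicator_of_notMem fun h => he h.1]

theorem mecke2 (hMecke : MeckeStatement) (hMS : MSumStatement) (hMR : MRestrStatement)
    [StandardBorelSpace E] (ρ : Measure E) [IsFiniteMeasure ρ] [NullSingletonClass ρ]
    (S : E → E → Set E → ℝ≥0∞)
    (hS : Measurable fun q : E × E × Cfg E => S q.1 q.2.1 (pt q.2.2)) :
    ∫⁻ ω, ∑' z : (pt ω : Set E), ∑' z' : (pt ω : Set E),
        ind ((z : E) ≠ z') * S z z' (pt ω \ {(z : E), (z' : E)}) ∂PL ρ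
      = ∫⁻ z, ∫⁻ z', ∫⁻ ω, S z z' (pt ω) ∂PL ρ ∂ρ ∂ρ := by
  obtain ⟨r, hr, hr'⟩ := exists_remove (E := E) hMR
  have hg : Measurable fun q : E × Cfg E =>
      ∑' p : (pt q.2 : Set E), S q.1 p (pt q.2 \ {(p : E)}) := by
    refine hMS.1 E E (fun t p P => S t p (P \ {p})) ?_
    have : (fun q : E × E × Cfg E => S q.1 q.2.1 (pt q.2.2 \ {q.2.1})) =
        fun q : E × E × Cfg E => S q.1 q.2.1 (pt (r (q.2.1, q.2.2))) := by
      funext q
      rw [hr']
    rw [this]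
    exact hS.comp (measurable_fst.prodMk ((measurable_fst.comp measurable_snd).prodMk
      (hr.comp measurable_snd)))
  have h1 := (hMecke E ρ (fun z P => ∑' p : (P : Set E), S z p (P \ {(p : E)})) hg).2
  have h2 : ∫⁻ ω, ∑' z : (pt ω : Set E), ∑' z' : (pt ω : Set E),
        ind ((z : E) ≠ z') * S z z' (pt ω \ {(z : E), (z' : E)}) ∂PL ρ =
      ∫⁻ ω, ∑' z : (pt ω : Set E), ∑' p : (pt ω \ {(z : E)} : Set E),
        S z p ((pt ω \ {(z : E)}) \ {(p : E)}) ∂PL ρ :=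
    lintegral_congr fun ω => tsum_pairs _ _
  rw [h2]
  refine h1.trans (lintegral_congr fun z => ?_)
  exact (hMecke E ρ (S z) (hS.comp (measurable_const.prodMk measurable_id))).2

end Pool.Agent.Lib.MP_5349a4_pr.H31
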