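import Pool.Agent.Lib.MP_5349a4_pr.M.Iface3
import Pool.Agent.Lib.MP_5349a4_pr.M.Base
import Pool.Agent.Lib.MP_5349a4_pr.M.H27.Scal

/-!
# MAGP: elementary properties of the magnetization
-/

set_option autoImplicit false
open MeasureTheory Set
open scoped ENNReal NNReal

namespace Pool.Agent.Lib.MP_5349a4_pr.H31

theorem cl_mono' {E : Type} (adj : E → E → Prop) {P Q : Set E} (h : P ⊆ Q) (x : E) :
    cl adj P x ⊆ cl adj Q x := by
  intro p hp
  have hp' : Relation.ReflTransGen (step adj P) x p := hp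
  induction hp' with
  | refl => exact Relation.ReflTransGen.refl
  | tail h1 h2 ih => exact Relation.ReflTransGen.tail (ih h1) ⟨h2.1, h h2.2⟩

theorem gco_mono {d : ℕ} {r : ℝ} {N N' G G' : Set (Eu d)} (hN : N ⊆ N') (hG : G ⊆ G') {x : Eu d}
    (h : gco r N G x) : gco r N' G' x := by
  obtain ⟨p, hp, hp'⟩ := h
  exact ⟨p, hG hp, cl_mono' _ (union_subset_union hN hG) x hp'⟩

theorem leb_restrict {d : ℕ} (lam : ℝ≥0) {V V' : Set (Eu d)} (hV : MeasurableSet V)
    (h : V ⊆ V') : (leb lam V').restrict V = leb lam V := by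
  unfold leb
  rw [Measure.restrict_smul, Measure.restrict_restrict hV, inter_eq_left.2 h]

theorem gp_restrict (hRes : ResStatement) (hMR : MRestrStatement) (hO : MOpsStatement)
    (hM : MSumStatement) (hC : ConMStatement) (d : ℕ) (r : ℝ) (ρn ρg : Measure (Eu d))
    [IsFiniteMeasure ρn] [IsFiniteMeasure ρg] (A : Set (Eu d)) (hA : MeasurableSet A) (x : Eu d) :
    gp r (ρn.restrict A) (ρg.restrict A) x ≤ gp r ρn ρg x := by
  have hP : IsProbabilityMeasure (PL ρg) := (H27.prob _ ρg).1
  have hP' : IsProbabilityMeasure (PL (ρg.restrict A)) := (H27.prob _ _).1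
  have hgm := H27.gco_meas hO hM hC d r
  have h1 : Measurable fun q : Cfg (Eu d) × Cfg (Eu d) => ind (gco r (pt q.1) (pt q.2) x) :=
    measurable_ind ((measurable_const.prodMk measurable_id :
      Measurable fun q : Cfg (Eu d) × Cfg (Eu d) => (x, q)) hgm)
  rw [H27.gp_eq hO hM hC, H27.gp_eq hO hM hC]
  have hf1 : CM fun N : Set (Eu d) => ∫⁻ ωg, ind (gco r N (pt ωg) x) ∂PL (ρg.restrict A) :=
    h1.lintegral_prod_right'
  rw [← (hRes (Eu d) ρn A hA).1 _ hf1]
  refine lintegral_mono fun ωn => ?_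
  obtain ⟨s, hs, hs'⟩ := hMR Unit (Eu d) {q | q.2 ∈ A} (measurable_snd hA)
  have hpt : pt ωn ∩ A = pt (s ((), ωn)) := by
    rw [hs']
    rfl
  have hf2 : CM fun G : Set (Eu d) => ind (gco r (pt ωn ∩ A) G x) := by
    have : Measurable fun ω : Cfg (Eu d) => ind (gco r (pt (s ((), ωn))) (pt ω) x) :=
      h1.comp (measurable_const.prodMk measurable_id)
    rw [hpt]
    exact this
  rw [← (hRes (Eu d) ρg A hA).1 _ hf2]
  exact lintegral_mono fun ωg => ind_mono (gco_mono inter_subset_left inter_subset_left)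

theorem gp_le_one {d : ℕ} (r : ℝ) (ρn ρg : Measure (Eu d)) [IsFiniteMeasure ρn]
    [IsFiniteMeasure ρg] (x : Eu d) : gp r ρn ρg x ≤ 1 := by
  have hP : IsProbabilityMeasure (PL ρn) := (H27.prob _ ρn).1
  have hP' : IsProbabilityMeasure (PL ρg) := (H27.prob _ ρg).1
  exact prob_le_one

theorem map_leb_add {d : ℕ} (lam : ℝ≥0) (x : Eu d) (V : Set (Eu d)) :
    (leb lam V).map (fun z : Eu d => z + x) = leb lam ((fun z : Eu d => z + x) '' V) := by
  unfold leb
  rw [Measure.map_smul]
  congr 1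
  exact ((measurePreserving_add_right (volume : Measure (Eu d)) x).restrict_image_emb
    (measurableEmbedding_addRight x) V).map_eq

theorem bal_add {d : ℕ} (x : Eu d) (L : ℝ) :
    (fun z : Eu d => z + x) '' bal (0 : Eu d) L = bal x L := by
  ext z
  unfold bal
  constructor
  · rintro ⟨u, hu, rfl⟩
    rw [Metric.mem_closedBall, dist_zero_right] at hu
    rw [Metric.mem_closedBall, dist_eq_norm, add_sub_cancel_right]
    exact hu
  · intro hz
    refine ⟨z - x, ?_, sub_add_cancel z x⟩
    rw [Metric.mem_closedBall, dist_eq_norm] at hz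
    rw [Metric.mem_closedBall, dist_zero_right]
    exact hz

theorem gp_translate (hI : ImgStatement) (hO : MOpsStatement) (hM : MSumStatement)
    (hC : ConMStatement) (d : ℕ) (r : ℝ) (a b : ℝ≥0) (x : Eu d) (L : ℝ) :
    gp r (leb a (bal x L)) (leb b (bal x L)) x =
      gp r (leb a (bal (0 : Eu d) L)) (leb b (bal (0 : Eu d) L)) 0 := by
  have hfa : IsFiniteMeasure (leb a (bal (0 : Eu d) L)) := finite_leb a (dom_bal _ _).2
  have hfb : IsFiniteMeasure (leb b (bal (0 : Eu d) L)) := finite_leb b (dom_bal _ _).2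
  have h := H27.gp_image hI hO hM hC d r r (fun z : Eu d => z + x)
    (measurable_id.add_const x) (add_left_injective x)
    (fun u v => by unfold ad; rw [dist_add_right]) (leb a (bal (0 : Eu d) L))
    (leb b (bal (0 : Eu d) L)) 0
  rw [map_leb_add, map_leb_add, bal_add, zero_add] at h
  exact h

theorem magp (hI : ImgStatement) (hRes : ResStatement) (hMR : MRestrStatement)
    (hO : MOpsStatement) (hM : MSumStatement) (hC : ConMStatement) : MagPStatement := by
  intro d lam r h hd hr hh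
  -- monotonicity in the domain
  have hmono : ∀ (U V : Set (Eu d)) (x : Eu d), Dom U → MeasurableSet V → V ⊆ U →
      gp r (leb (lam * (1 - h)) V) (leb (lam * h) V) x ≤
        gp r (leb (lam * (1 - h)) U) (leb (lam * h) U) x := by
    intro U V x hU hV hVU
    have hfa : IsFiniteMeasure (leb (lam * (1 - h)) U) := finite_leb _ hU.2
    have hfb : IsFiniteMeasure (leb (lam * h) U) := finite_leb _ hU.2
    have := gp_restrict hRes hMR hO hM hC d r (leb (lam * (1 - h)) U) (leb (lam * h) U) V hV x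
    rwa [leb_restrict _ hV hVU, leb_restrict _ hV hVU] at this
  have hMag : ∀ (U : Set (Eu d)) (x : Eu d), Dom U →
      gp r (leb (lam * (1 - h)) U) (leb (lam * h) U) x ≤ Mag d lam r h := by
    intro U x hU
    obtain ⟨R, hR⟩ := hU.2.subset_closedBall x
    obtain ⟨n, hn⟩ := exists_nat_ge R
    have h1 : U ⊆ bal x (n : ℝ) := hR.trans (Metric.closedBall_subset_closedBall hn)
    refine (hmono (bal x n) U x (dom_bal _ _) hU.1 h1).trans ?_
    rw [gp_translate hI hO hM hC]
    exact le_iSup (fun L : ℕ => magL d lam r h L) n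
  refine ⟨?_, ?_, ?_, hMag, ?_⟩
  · intro L L' hL
    exact hmono (bal 0 L') (bal 0 L) 0 (dom_bal _ _) (dom_bal _ _).1
      (Metric.closedBall_subset_closedBall hL)
  · refine iSup_le fun L => ?_
    have hfa : IsFiniteMeasure (leb (lam * (1 - h)) (bal (0 : Eu d) L)) :=
      finite_leb _ (dom_bal _ _).2
    have hfb : IsFiniteMeasure (leb (lam * h) (bal (0 : Eu d) L)) := finite_leb _ (dom_bal _ _).2
    exact gp_le_one r _ _ 0
  · intro U x L hU hL
    refine le_trans (le_of_eq ?_) (hmono U (bal x L) x hU (dom_bal _ _).1 hL)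
    rw [gp_translate hI hO hM hC]
    rfl
  · intro U W x hU hW
    refine le_trans (measure_mono ?_) (hMag U x hU)
    rintro q ⟨u, ⟨hu1, p, hp1, hp2⟩, hxu⟩
    refine ⟨p, hp1.1, ?_⟩
    have h1 : p ∈ cl (ad r) (pt q.1 ∪ pt q.2) u := cl_mono' _ sdiff_subset u hp2
    exact Relation.ReflTransGen.head ⟨hxu, hu1.1⟩ h1

end Pool.Agent.Lib.MP_5349a4_pr.H31
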