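import Pool.Agent.Lib.MP_5349a4_pr.M.H31.RevaA

/-!
# REVA, part 2: the reverse inequality, abstract form
-/

set_option autoImplicit false
open MeasureTheory Set
open scoped ENNReal NNReal

namespace Pool.Agent.Lib.MP_5349a4_pr.H31

section
variable {E : Type} [MeasurableSpace E] [StandardBorelSpace E]

theorem measurable_con (hConM : ConMStatement) {adj : E → E → Prop} (hadj : MAdj adj)
    {α : Type*} [MeasurableSpace α] {f g : α → E} {h : α → Cfg E} (hf : Measurable f)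
    (hg : Measurable g) (hh : Measurable h) :
    Measurable fun a => ind (Con adj (pt (h a)) (f a) (g a)) :=
  (measurable_ind (hConM E adj hadj).1).comp (hf.prodMk (hg.prodMk hh))

theorem measurable_cnt' (hConM : ConMStatement) {adj : E → E → Prop} (hadj : MAdj adj)
    {α : Type*} [MeasurableSpace α] {f : α → E} {h : α → Cfg E} (hf : Measurable f)
    (hh : Measurable h) : Measurable fun a => cnt adj (pt (h a)) (f a) :=
  (hConM E adj hadj).2.2.2.comp (hf.prodMk hh)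

theorem camp_cnt (hCamp : CampStatement) (hProb : ProbStatement) (σ : Measure E)
    [IsFiniteMeasure σ] [NullSingletonClass σ] (adj : E → E → Prop) (hadj : MAdj adj) (z : E) :
    ∫⁻ ω, (1 + cnt adj (pt ω) z) ∂PL σ = 1 + ∫⁻ y, tp adj σ z y ∂σ := by
  have := (hProb E σ).1
  rw [lintegral_add_left measurable_const, lintegral_one, measure_univ]
  congr 1
  have h := hCamp E σ adj (fun _ => 1) z hadj measurable_const
  simp only [mul_one] at h
  exact h

theorem pair_bound (hPair : PairStatement) (hHpb : HpbStatement) (hConM : ConMStatement)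
    (σ κ : Measure E) [IsFiniteMeasure σ] [IsFiniteMeasure κ] [NullSingletonClass σ]
    [NullSingletonClass κ] (adj : E → E → Prop) (X : ℝ≥0∞) (hadj : MAdj adj)
    (hsymm : ∀ a b, adj a b → adj b a)
    (hX : ∀ b, 1 + ∫⁻ y, tp adj (σ + κ) b y ∂(σ + κ) ≤ X) (z z' : E) :
    ∫⁻ ω, (ind (Con adj (pt ω) z z') * (1 + cnt adj (pt ω) z) +
        ind (Con adj (pt ω) z' z) * (1 + cnt adj (pt ω) z')) ∂PL σ
      ≤ 2 * (X * (tp adj (σ + κ) z z' +
          ∫⁻ b, tp adj (σ + κ) z b * tp adj (σ + κ) b z' ∂(σ + κ))) := by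
  have hs : ∀ c : E, MeasurableSet {a : E | adj a c} := by
    intro c
    have : Measurable fun a : E => ((a, c) : E × E) := measurable_id.prodMk measurable_const
    exact this hadj
  have : NullSingletonClass (σ + κ) := nsc_add σ κ
  have hmono : ∀ a b : E, tp adj σ a b ≤ tp adj (σ + κ) a b := fun a b =>
    (hHpb E σ κ adj (fun a => adj a b) a b hadj (hs b)).2.2.2.2.2.1
  have hsym : ∀ a b : E, tp adj (σ + κ) a b = tp adj (σ + κ) b a := fun a b =>
    (hHpb E (σ + κ) (σ + κ) adj (fun a => adj a b) a b hadj (hs b)).2.2.2.2.2.2.2.2 hsymm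
  have hle : ∀ f : E → ℝ≥0∞, ∫⁻ b, f b ∂σ ≤ ∫⁻ b, f b ∂(σ + κ) := by
    intro f
    rw [lintegral_add_measure]
    exact le_self_add
  have hXσ : ∀ b, 1 + ∫⁻ y, tp adj σ b y ∂σ ≤ X := by
    intro b
    refine le_trans (add_le_add le_rfl ?_) (hX b)
    exact (lintegral_mono fun y => hmono b y).trans (hle _)
  have key : ∀ a c : E, ∫⁻ ω, ind (Con adj (pt ω) a c) * (1 + cnt adj (pt ω) a) ∂PL σ ≤
      X * (tp adj (σ + κ) a c + ∫⁻ b, tp adj (σ + κ) a b * tp adj (σ + κ) b c ∂(σ + κ)) := by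
    intro a c
    have h := hPair E σ adj (fun e => adj e c) X a hadj (hs c) hXσ
    refine le_trans h ?_
    refine mul_le_mul' le_rfl (add_le_add (hmono a c) ?_)
    refine le_trans ?_ (hle _)
    exact lintegral_mono fun b => mul_le_mul' (hmono a b) (hmono b c)
  have hmeas : Measurable fun ω : Cfg E => ind (Con adj (pt ω) z z') * (1 + cnt adj (pt ω) z) :=
    (measurable_con hConM hadj measurable_const measurable_const measurable_id).mul
      (measurable_const.add (measurable_cnt' hConM hadj measurable_const measurable_id))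
  rw [lintegral_add_left hmeas, two_mul]
  refine add_le_add (key z z') ((key z' z).trans_eq ?_)
  rw [hsym z' z]
  congr 2
  refine lintegral_congr fun b => ?_
  rw [hsym z' b, hsym b z, mul_comm]

end

theorem reva (hRevD : RevDStatement) (hExpl : ExplStatement) (hSuper : SuperStatement)
    (hMecke : MeckeStatement) (hPair : PairStatement) (hWsl : WslStatement)
    (hCamp : CampStatement) (hHpb : HpbStatement) (hConM : ConMStatement) (hRes : ResStatement)
    (hProb : ProbStatement) (hClb : ClbStatement) (hMR : MRestrStatement)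
    (hMO : MOpsStatement) (hMS : MSumStatement) : RevAStatement := by
  intro E _ _ ρ₁ ρ₂ _ _ _ _ adj X x hadj hsymm hXtop hX
  have hP1 := (hProb E ρ₁).1
  have hP2 := (hProb E ρ₂).1
  have hnμ : NullSingletonClass (ρ₁ + ρ₂) := nsc_add ρ₁ ρ₂
  obtain ⟨a, ha, ha'⟩ := hMO.1 E
  obtain ⟨r, hr, hr'⟩ := exists_thin hMR hConM adj hadj x
  -- the joined configuration
  let J : Cfg E × Cfg E → Cfg E := fun q => a (r (q.1, q.1), q.2)
  have hJ : Measurable J := ha.comp ((hr.comp (measurable_fst.prodMk measurable_fst)).prodMk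
    measurable_snd)
  have hJ' : ∀ ω₁ ω₂, pt (J (ω₁, ω₂)) = {e | e ∈ pt ω₁ ∧ ¬ Con adj (pt ω₁) x e} ∪ pt ω₂ := by
    intro ω₁ ω₂
    rw [ha', hr']
  have hDm : ∀ ω₁ : Cfg E, MeasurableSet {e | ¬ Con adj (pt ω₁) x e} := by
    intro ω₁
    have : Measurable fun e : E => ((x, e, ω₁) : E × E × Cfg E) :=
      measurable_const.prodMk (measurable_id.prodMk measurable_const)
    exact (this (hConM E adj hadj).1).compl
  -- measurability of the basic functions
  have hc : ∀ {α : Type} [MeasurableSpace α] {f g : α → E} {h : α → Cfg E}, Measurable f →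
      Measurable g → Measurable h → Measurable fun a => ind (Con adj (pt (h a)) (f a) (g a)) :=
    fun hf hg hh => measurable_con hConM hadj hf hg hh
  have hn : ∀ {α : Type} [MeasurableSpace α] {f : α → E} {h : α → Cfg E}, Measurable f →
      Measurable h → Measurable fun a => cnt adj (pt (h a)) (f a) :=
    fun hf hh => measurable_cnt' hConM hadj hf hh
  have htpm : Measurable fun q : E × E => tp adj (ρ₁ + ρ₂) q.1 q.2 :=
    (hConM E adj hadj).2.2.1 (ρ₁ + ρ₂)
  -- the two functionals of the exploration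
  set K1 : E → Set E → Set E → ℝ≥0∞ := fun z P Q => ind (Con adj P x z) * (1 + cnt adj Q z)
    with hK1
  set S0 : E → E → Set E → ℝ≥0∞ := fun z z' Q =>
    ind (Con adj Q z z') * (1 + cnt adj Q z) + ind (Con adj Q z' z) * (1 + cnt adj Q z') with hS0
  set K2 : E → E → Set E → Set E → ℝ≥0∞ := fun z z' P Q =>
    ind (Con adj P x z ∧ Con adj P x z') * S0 z z' Q with hK2
  have hK1c : ∀ z P Q, K1 z (clus adj P x) Q = K1 z P Q := by
    intro z P Q
    simp only [hK1]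
    rw [ind_congr (con_clus hClb adj P x z)]
  have hK2c : ∀ z z' P Q, K2 z z' (clus adj P x) Q = K2 z z' P Q := by
    intro z z' P Q
    simp only [hK2]
    rw [ind_congr (and_congr (con_clus hClb adj P x z) (con_clus hClb adj P x z'))]
  have hK1m : ∀ {α : Type} [MeasurableSpace α] {f : α → E} {h g : α → Cfg E}, Measurable f →
      Measurable h → Measurable g → Measurable fun a => K1 (f a) (pt (h a)) (pt (g a)) :=
    fun hf hh hg => (hc measurable_const hf hh).mul (measurable_const.add (hn hf hg))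
  have hK2m : ∀ {α : Type} [MeasurableSpace α] {f f' : α → E} {h g : α → Cfg E}, Measurable f →
      Measurable f' → Measurable h → Measurable g →
      Measurable fun a => K2 (f a) (f' a) (pt (h a)) (pt (g a)) := by
    intro α _ f f' h g hf hf' hh hg
    simp only [hK2, hS0, ind_and]
    exact ((hc measurable_const hf hh).mul (hc measurable_const hf' hh)).mul
      (((hc hf hf' hg).mul (measurable_const.add (hn hf hg))).add
        ((hc hf' hf hg).mul (measurable_const.add (hn hf' hg))))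
  -- abbreviations
  set T : E → E → ℝ≥0∞ := fun z z' => tp adj (ρ₁ + ρ₂) z z' +
    ∫⁻ b, tp adj (ρ₁ + ρ₂) z b * tp adj (ρ₁ + ρ₂) b z' ∂(ρ₁ + ρ₂) with hT
  set A : ℝ≥0∞ := ∫⁻ z, ∫⁻ ω₁, ∫⁻ ω, K1 z (pt ω₁) (pt ω)
    ∂PL (ρ₁.restrict {e | ¬ Con adj (pt ω₁) x e} + ρ₂) ∂PL ρ₁ ∂ρ₂ with hA
  set B : ℝ≥0∞ := ∫⁻ z, ∫⁻ z', tp2 adj ρ₁ x z z' * T z z' ∂ρ₂ ∂ρ₂ with hB
  set C : ℝ≥0∞ := ∫⁻ z, ∫⁻ w, tp2 adj ρ₁ x z w * tp adj (ρ₁ + ρ₂) z w ∂ρ₁ ∂ρ₂ with hC
  have hsum : ∀ ω₁ : Cfg E, (ρ₁.restrict {e | ¬ Con adj (pt ω₁) x e} + ρ₂) +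
      ρ₁.restrict {e | ¬ Con adj (pt ω₁) x e}ᶜ = ρ₁ + ρ₂ := by
    intro ω₁
    rw [add_assoc, add_comm ρ₂, ← add_assoc, Measure.restrict_add_restrict_compl (hDm ω₁)]
  have htp2 : ∀ z w, tp2 adj ρ₁ x z w =
      ∫⁻ ω₁, ind (Con adj (pt ω₁) x z) * ind (Con adj (pt ω₁) x w) ∂PL ρ₁ := by
    intro z w
    unfold tp2
    have hm : MeasurableSet {ω : Cfg E | Con adj (pt ω) x z ∧ Con adj (pt ω) x w} := by
      have h1 : ∀ v : E, MeasurableSet {ω : Cfg E | Con adj (pt ω) x v} := by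
        intro v
        have : Measurable fun ω : Cfg E => ((x, v, ω) : E × E × Cfg E) :=
          measurable_const.prodMk (measurable_const.prodMk measurable_id)
        exact this (hConM E adj hadj).1
      exact (h1 z).inter (h1 w)
    rw [← lintegral_ind hm]
    exact lintegral_congr fun ω => ind_and _ _
  -- step 1
  have step1 : ∫⁻ z, tp adj ρ₁ x z * (1 + ∫⁻ y, tp adj (ρ₁ + ρ₂) z y ∂(ρ₁ + ρ₂)) ∂ρ₂
      ≤ A + X * C := by
    have hz : ∀ z, tp adj ρ₁ x z * (1 + ∫⁻ y, tp adj (ρ₁ + ρ₂) z y ∂(ρ₁ + ρ₂)) ≤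
        (∫⁻ ω₁, ∫⁻ ω, K1 z (pt ω₁) (pt ω)
          ∂PL (ρ₁.restrict {e | ¬ Con adj (pt ω₁) x e} + ρ₂) ∂PL ρ₁) +
        X * ∫⁻ w, tp2 adj ρ₁ x z w * tp adj (ρ₁ + ρ₂) z w ∂ρ₁ := by
      intro z
      have e1 : tp adj ρ₁ x z = ∫⁻ ω₁, ind (Con adj (pt ω₁) x z) ∂PL ρ₁ := by
        have hm : MeasurableSet {ω : Cfg E | Con adj (pt ω) x z} := by
          have : Measurable fun ω : Cfg E => ((x, z, ω) : E × E × Cfg E) :=
            measurable_const.prodMk (measurable_const.prodMk measurable_id)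
          exact this (hConM E adj hadj).1
        rw [lintegral_ind hm]
        rfl
      have hcm : Measurable fun ω₁ : Cfg E => ind (Con adj (pt ω₁) x z) :=
        hc measurable_const measurable_const measurable_id
      rw [e1, ← lintegral_mul_const _ hcm]
      have hpt : ∀ ω₁ : Cfg E, ind (Con adj (pt ω₁) x z) *
          (1 + ∫⁻ y, tp adj (ρ₁ + ρ₂) z y ∂(ρ₁ + ρ₂)) ≤
          (∫⁻ ω, K1 z (pt ω₁) (pt ω) ∂PL (ρ₁.restrict {e | ¬ Con adj (pt ω₁) x e} + ρ₂)) +
          X * ∫⁻ w, ind (Con adj (pt ω₁) x z) * ind (Con adj (pt ω₁) x w) *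
            tp adj (ρ₁ + ρ₂) z w ∂ρ₁ := by
        intro ω₁
        have hnσ : NullSingletonClass (ρ₁.restrict {e | ¬ Con adj (pt ω₁) x e} + ρ₂) :=
          nsc_add _ _
        have h1 := hWsl E (ρ₁.restrict {e | ¬ Con adj (pt ω₁) x e} + ρ₂)
          (ρ₁.restrict {e | ¬ Con adj (pt ω₁) x e}ᶜ) adj (fun _ => 1) z hadj measurable_const
        rw [hsum ω₁] at h1
        unfold wgt at h1
        simp only [mul_one] at h1
        have h2 : ∫⁻ w, tp adj (ρ₁.restrict {e | ¬ Con adj (pt ω₁) x e} + ρ₂) z w *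
            (1 + ∫⁻ y, tp adj (ρ₁ + ρ₂) w y ∂(ρ₁ + ρ₂))
              ∂ρ₁.restrict {e | ¬ Con adj (pt ω₁) x e}ᶜ ≤
            X * ∫⁻ w, ind (Con adj (pt ω₁) x w) * tp adj (ρ₁ + ρ₂) z w ∂ρ₁ := by
          have h3 : ∀ w, tp adj (ρ₁.restrict {e | ¬ Con adj (pt ω₁) x e} + ρ₂) z w *
              (1 + ∫⁻ y, tp adj (ρ₁ + ρ₂) w y ∂(ρ₁ + ρ₂)) ≤ X * tp adj (ρ₁ + ρ₂) z w := by
            intro w
            have hs : MeasurableSet {a : E | adj a w} := by
              have : Measurable fun a : E => ((a, w) : E × E) :=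
                measurable_id.prodMk measurable_const
              exact this hadj
            have h4 := (hHpb E (ρ₁.restrict {e | ¬ Con adj (pt ω₁) x e} + ρ₂)
              (ρ₁.restrict {e | ¬ Con adj (pt ω₁) x e}ᶜ) adj (fun a => adj a w) z w hadj
              hs).2.2.2.2.2.1
            rw [hsum ω₁] at h4
            rw [mul_comm X]
            exact mul_le_mul' h4 (hX w)
          refine (lintegral_mono h3).trans ?_
          rw [lintegral_const_mul' _ _ hXtop]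
          refine mul_le_mul' le_rfl ?_
          rw [← lintegral_mul_ind (hDm ω₁).compl]
          refine lintegral_mono fun w => mul_le_mul' (ind_mono ?_) le_rfl
          intro hw
          simpa using hw
        have h5 : 1 + ∫⁻ y, tp adj (ρ₁.restrict {e | ¬ Con adj (pt ω₁) x e} + ρ₂) z y
            ∂(ρ₁.restrict {e | ¬ Con adj (pt ω₁) x e} + ρ₂) =
            ∫⁻ ω, (1 + cnt adj (pt ω) z)
              ∂PL (ρ₁.restrict {e | ¬ Con adj (pt ω₁) x e} + ρ₂) :=
          (camp_cnt hCamp hProb _ adj hadj z).symm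
        by_cases hcon : Con adj (pt ω₁) x z
        · simp only [hK1, ind_of hcon, one_mul]
          refine h1.trans ?_
          rw [h5]
          exact add_le_add le_rfl h2
        · rw [ind_not hcon, zero_mul]
          exact zero_le
      refine (lintegral_mono hpt).trans ?_
      have hm20 : Measurable fun q : Cfg E × E => ((z, q.2) : E × E) :=
        measurable_const.prodMk measurable_snd
      have hm21 : Measurable fun q : Cfg E × E => ind (Con adj (pt q.1) x z) :=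
        hc measurable_const measurable_const measurable_fst
      have hm22 : Measurable fun q : Cfg E × E => ind (Con adj (pt q.1) x q.2) :=
        hc measurable_const measurable_snd measurable_fst
      have hm23 := htpm.comp hm20
      have hm2 : Measurable fun q : Cfg E × E => ind (Con adj (pt q.1) x z) *
          ind (Con adj (pt q.1) x q.2) * tp adj (ρ₁ + ρ₂) z q.2 :=
        (hm21.mul hm22).mul hm23
      have hm3 : Measurable fun ω₁ : Cfg E => X * ∫⁻ w, ind (Con adj (pt ω₁) x z) *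
          ind (Con adj (pt ω₁) x w) * tp adj (ρ₁ + ρ₂) z w ∂ρ₁ :=
        measurable_const.mul (measurable_lint (f := fun (ω₁ : Cfg E) w =>
          ind (Con adj (pt ω₁) x z) * ind (Con adj (pt ω₁) x w) * tp adj (ρ₁ + ρ₂) z w) hm2)
      rw [lintegral_add_right _ hm3]
      refine add_le_add le_rfl ?_
      rw [lintegral_const_mul' _ _ hXtop]
      refine mul_le_mul' le_rfl (le_of_eq ?_)
      rw [lintegral_lintegral_swap hm2.aemeasurable]
      refine lintegral_congr fun w => ?_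
      rw [htp2 z w, lintegral_mul_const]
      exact (hc measurable_const measurable_const measurable_id).mul
        (hc measurable_const measurable_const measurable_id)
    refine (lintegral_mono hz).trans ?_
    have hm4 : Measurable fun z => X * ∫⁻ w, tp2 adj ρ₁ x z w * tp adj (ρ₁ + ρ₂) z w ∂ρ₁ := by
      refine measurable_const.mul (measurable_lint (f := fun z w =>
        tp2 adj ρ₁ x z w * tp adj (ρ₁ + ρ₂) z w) ?_)
      refine Measurable.mul ?_ htpm
      simp only [htp2]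
      refine measurable_lint (f := fun (q : E × E) (ω₁ : Cfg E) =>
        ind (Con adj (pt ω₁) x q.1) * ind (Con adj (pt ω₁) x q.2)) ?_
      exact (hc measurable_const (measurable_fst.comp measurable_fst) measurable_snd).mul
        (hc measurable_const (measurable_snd.comp measurable_fst) measurable_snd)
    rw [lintegral_add_right _ hm4, lintegral_const_mul' _ _ hXtop]
  -- step 2
  have step2 : A = ∫⁻ ω₁, ∫⁻ ω₂, ∑' z : (pt ω₂ : Set E), K1 z (pt ω₁)
      ({e | e ∈ pt ω₁ ∧ ¬ Con adj (pt ω₁) x e} ∪ (pt ω₂ \ {(z : E)})) ∂PL ρ₂ ∂PL ρ₁ := by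
    have h1 : A = ∫⁻ z, ∫⁻ ω₁, ∫⁻ ω₂, K1 z (pt ω₁)
        ({e | e ∈ pt ω₁ ∧ ¬ Con adj (pt ω₁) x e} ∪ pt ω₂) ∂PL ρ₂ ∂PL ρ₁ ∂ρ₂ := by
      rw [hA]
      refine lintegral_congr fun z => ?_
      exact (expl2 hExpl hSuper hRes hProb hMO hConM ρ₁ ρ₂ adj hadj x (K1 z)
        (hK1m measurable_const measurable_fst measurable_snd) (hK1c z)).symm
    rw [h1]
    have hm : Measurable fun q : E × Cfg E => ∫⁻ ω₂, K1 q.1 (pt q.2)
        ({e | e ∈ pt q.2 ∧ ¬ Con adj (pt q.2) x e} ∪ pt ω₂) ∂PL ρ₂ := by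
      refine measurable_lint (f := fun (q : E × Cfg E) ω₂ => K1 q.1 (pt q.2)
        ({e | e ∈ pt q.2 ∧ ¬ Con adj (pt q.2) x e} ∪ pt ω₂)) ?_
      simp only [← hJ']
      exact hK1m (measurable_fst.comp measurable_fst) (measurable_snd.comp measurable_fst)
        (hJ.comp ((measurable_snd.comp measurable_fst).prodMk measurable_snd))
    rw [lintegral_lintegral_swap hm.aemeasurable]
    refine lintegral_congr fun ω₁ => ?_
    have hg : Measurable fun q : E × Cfg E => K1 q.1 (pt ω₁)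
        ({e | e ∈ pt ω₁ ∧ ¬ Con adj (pt ω₁) x e} ∪ pt q.2) := by
      simp only [← hJ']
      exact hK1m measurable_fst measurable_const (hJ.comp (measurable_const.prodMk measurable_snd))
    exact ((hMecke E ρ₂ (fun z P => K1 z (pt ω₁)
      ({e | e ∈ pt ω₁ ∧ ¬ Con adj (pt ω₁) x e} ∪ P)) hg).2).symm
  -- step 3
  have step3 : ∫⁻ ω₁, ∫⁻ ω₂, ∑' z : (pt ω₂ : Set E), ∑' z' : (pt ω₂ : Set E),
      ind ((z : E) ≠ z') * K2 z z' (pt ω₁)
        ({e | e ∈ pt ω₁ ∧ ¬ Con adj (pt ω₁) x e} ∪ (pt ω₂ \ {(z : E), (z' : E)}))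
        ∂PL ρ₂ ∂PL ρ₁ ≤ 2 * (X * B) := by
    have hm : ∀ {α : Type} [MeasurableSpace α] {f f' : α → E} {h g : α → Cfg E}, Measurable f →
        Measurable f' → Measurable h → Measurable g →
        Measurable fun a => K2 (f a) (f' a) (pt (h a))
          ({e | e ∈ pt (h a) ∧ ¬ Con adj (pt (h a)) x e} ∪ pt (g a)) := by
      intro α _ f f' h g hf hf' hh hg
      simp only [← hJ']
      exact hK2m hf hf' hh (hJ.comp (hh.prodMk hg))
    have h1 : ∀ ω₁ : Cfg E, ∫⁻ ω₂, ∑' z : (pt ω₂ : Set E), ∑' z' : (pt ω₂ : Set E),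
        ind ((z : E) ≠ z') * K2 z z' (pt ω₁)
        ({e | e ∈ pt ω₁ ∧ ¬ Con adj (pt ω₁) x e} ∪ (pt ω₂ \ {(z : E), (z' : E)})) ∂PL ρ₂ =
        ∫⁻ z, ∫⁻ z', ∫⁻ ω₂, K2 z z' (pt ω₁)
          ({e | e ∈ pt ω₁ ∧ ¬ Con adj (pt ω₁) x e} ∪ pt ω₂) ∂PL ρ₂ ∂ρ₂ ∂ρ₂ := by
      intro ω₁
      exact mecke2 hMecke hMS hMR ρ₂ (fun z z' P => K2 z z' (pt ω₁)
        ({e | e ∈ pt ω₁ ∧ ¬ Con adj (pt ω₁) x e} ∪ P))
        (hm measurable_fst (measurable_fst.comp measurable_snd) measurable_const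
          (measurable_snd.comp measurable_snd))
    rw [lintegral_congr h1]
    have hmm : Measurable fun q : Cfg E × E × E => ∫⁻ ω₂, K2 q.2.1 q.2.2 (pt q.1)
          ({e | e ∈ pt q.1 ∧ ¬ Con adj (pt q.1) x e} ∪ pt ω₂) ∂PL ρ₂ := by
      refine measurable_lint (f := fun (q : Cfg E × E × E) ω₂ => K2 q.2.1 q.2.2 (pt q.1)
        ({e | e ∈ pt q.1 ∧ ¬ Con adj (pt q.1) x e} ∪ pt ω₂)) ?_
      exact hm (measurable_fst.comp (measurable_snd.comp measurable_fst))
        (measurable_snd.comp (measurable_snd.comp measurable_fst))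
        (measurable_fst.comp measurable_fst) measurable_snd
    have hm5 : Measurable fun q : Cfg E × E => ∫⁻ z', ∫⁻ ω₂, K2 q.2 z' (pt q.1)
          ({e | e ∈ pt q.1 ∧ ¬ Con adj (pt q.1) x e} ∪ pt ω₂) ∂PL ρ₂ ∂ρ₂ := by
      refine measurable_lint (f := fun (q : Cfg E × E) z' => ∫⁻ ω₂, K2 q.2 z' (pt q.1)
          ({e | e ∈ pt q.1 ∧ ¬ Con adj (pt q.1) x e} ∪ pt ω₂) ∂PL ρ₂) ?_
      have hm50 : Measurable fun q : (Cfg E × E) × E => ((q.1.1, q.1.2, q.2) : Cfg E × E × E) :=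
        (measurable_fst.comp measurable_fst).prodMk
          ((measurable_snd.comp measurable_fst).prodMk measurable_snd)
      have hm51 := hmm.comp hm50
      exact hm51
    rw [lintegral_lintegral_swap hm5.aemeasurable]
    have hbd : ∀ z z' : E, ∫⁻ ω₁, ∫⁻ ω₂, K2 z z' (pt ω₁)
          ({e | e ∈ pt ω₁ ∧ ¬ Con adj (pt ω₁) x e} ∪ pt ω₂) ∂PL ρ₂ ∂PL ρ₁ ≤
          (2 * X) * (tp2 adj ρ₁ x z z' * T z z') := by
      intro z z'
      rw [expl2 hExpl hSuper hRes hProb hMO hConM ρ₁ ρ₂ adj hadj x (K2 z z')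
        (hK2m measurable_const measurable_const measurable_fst measurable_snd) (hK2c z z')]
      have hpt : ∀ ω₁ : Cfg E, ∫⁻ ω, K2 z z' (pt ω₁) (pt ω)
          ∂PL (ρ₁.restrict {e | ¬ Con adj (pt ω₁) x e} + ρ₂) ≤
          (ind (Con adj (pt ω₁) x z) * ind (Con adj (pt ω₁) x z')) * (2 * (X * T z z')) := by
        intro ω₁
        simp only [hK2]
        rw [lintegral_const_mul' _ _ (ind_ne_top _), ind_and]
        refine mul_le_mul' le_rfl ?_
        have hnσ : NullSingletonClass (ρ₁.restrict {e | ¬ Con adj (pt ω₁) x e} + ρ₂) :=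
          nsc_add _ _
        have h := pair_bound hPair hHpb hConM (ρ₁.restrict {e | ¬ Con adj (pt ω₁) x e} + ρ₂)
          (ρ₁.restrict {e | ¬ Con adj (pt ω₁) x e}ᶜ) adj X hadj hsymm
          (by rw [hsum ω₁]; exact hX) z z'
        rw [hsum ω₁] at h
        exact h
      refine (lintegral_mono hpt).trans (le_of_eq ?_)
      have hmzz : Measurable fun a : Cfg E => ind (Con adj (pt a) x z) *
          ind (Con adj (pt a) x z') :=
        (hc measurable_const measurable_const measurable_id).mul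
          (hc measurable_const measurable_const measurable_id)
      rw [lintegral_mul_const _ hmzz, ← htp2]
      ring
    have h2X : (2 : ℝ≥0∞) * X ≠ ∞ := ENNReal.mul_ne_top (by simp) hXtop
    have hz : ∀ z : E, ∫⁻ ω₁, ∫⁻ z', ∫⁻ ω₂, K2 z z' (pt ω₁)
          ({e | e ∈ pt ω₁ ∧ ¬ Con adj (pt ω₁) x e} ∪ pt ω₂) ∂PL ρ₂ ∂ρ₂ ∂PL ρ₁ ≤
          (2 * X) * ∫⁻ z', tp2 adj ρ₁ x z z' * T z z' ∂ρ₂ := by
      intro z
      have hm60 : Measurable fun q : Cfg E × E => ((q.1, z, q.2) : Cfg E × E × E) :=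
        measurable_fst.prodMk (measurable_const.prodMk measurable_snd)
      have hm61 := hmm.comp hm60
      have hm6 : Measurable fun q : Cfg E × E => ∫⁻ ω₂, K2 z q.2 (pt q.1)
          ({e | e ∈ pt q.1 ∧ ¬ Con adj (pt q.1) x e} ∪ pt ω₂) ∂PL ρ₂ := hm61
      rw [lintegral_lintegral_swap hm6.aemeasurable, ← lintegral_const_mul' _ _ h2X]
      exact lintegral_mono fun z' => hbd z z'
    refine (lintegral_mono hz).trans (le_of_eq ?_)
    rw [lintegral_const_mul' _ _ h2X, mul_assoc]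
  -- the deterministic inequality
  have hdet : ∀ᵐ ω₁ ∂PL ρ₁, ∀ᵐ ω₂ ∂PL ρ₂,
      2 * ∑' z : (pt ω₂ : Set E), K1 z (pt ω₁)
        ({e | e ∈ pt ω₁ ∧ ¬ Con adj (pt ω₁) x e} ∪ (pt ω₂ \ {(z : E)})) ≤
      2 * cnt adj (pt ω₁ ∪ pt ω₂) x + ∑' z : (pt ω₂ : Set E), ∑' z' : (pt ω₂ : Set E),
      ind ((z : E) ≠ z') * K2 z z' (pt ω₁)
        ({e | e ∈ pt ω₁ ∧ ¬ Con adj (pt ω₁) x e} ∪ (pt ω₂ \ {(z : E), (z' : E)})) := by
    filter_upwards [(hProb E ρ₁).2 {x} (measurableSet_singleton x) (measure_singleton x)]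
      with ω₁ hω₁
    have hfin : MeasurableSet (pt ω₁ : Set E) := (pt_finite ω₁).measurableSet
    have hnull : ρ₂ (pt ω₁) = 0 := (pt_finite ω₁).countable.measure_zero ρ₂
    filter_upwards [(hProb E ρ₂).2 {x} (measurableSet_singleton x) (measure_singleton x),
      (hProb E ρ₂).2 (pt ω₁) hfin hnull] with ω₂ hω₂ hω₂'
    have hdisj : Disjoint (pt ω₁) (pt ω₂) :=
      Set.disjoint_left.2 fun p hp hp' => hω₂' p hp' hp
    have h := hRevD E adj (pt ω₁) (pt ω₂) x hsymm (pt_finite ω₁) (pt_finite ω₂) hdisj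
      (fun hx => hω₁ x hx rfl) (fun hx => hω₂ x hx rfl) _ rfl
    have e1 : ∀ z : (pt ω₂ : Set E), {e | e ∈ pt ω₁ ∧ ¬ Con adj (pt ω₁) x e} ∪ (pt ω₂ \ {(z : E)})
        = {e | (e ∈ pt ω₁ ∧ ¬ Con adj (pt ω₁) x e) ∨ e ∈ pt ω₂} \ {(z : E)} := by
      intro z
      ext e
      constructor
      · rintro (he | he)
        · refine ⟨Or.inl he, fun h => ?_⟩
          rw [mem_singleton_iff] at h
          exact hω₂' z z.2 (h ▸ he.1)
        · exact ⟨Or.inr he.1, he.2⟩
      · rintro ⟨he | he, h⟩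
        · exact Or.inl he
        · exact Or.inr ⟨he, h⟩
    have e2 : ∀ z z' : (pt ω₂ : Set E), {e | e ∈ pt ω₁ ∧ ¬ Con adj (pt ω₁) x e} ∪
        (pt ω₂ \ {(z : E), (z' : E)}) =
        {e | (e ∈ pt ω₁ ∧ ¬ Con adj (pt ω₁) x e) ∨ e ∈ pt ω₂} \ {(z : E), (z' : E)} := by
      intro z z'
      ext e
      constructor
      · rintro (he | he)
        · refine ⟨Or.inl he, fun h => ?_⟩
          rw [mem_insert_iff, mem_singleton_iff] at h
          rcases h with h | h
          · exact hω₂' z z.2 (h ▸ he.1)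
          · exact hω₂' z' z'.2 (h ▸ he.1)
        · exact ⟨Or.inr he.1, he.2⟩
      · rintro ⟨he | he, h⟩
        · exact Or.inl he
        · exact Or.inr ⟨he, h⟩
    simp only [e1, e2, hK1, hK2, hS0]
    refine h.trans_eq ?_
    congr 1
    refine tsum_congr fun z => tsum_congr fun z' => ?_
    rw [ind_and, mul_assoc]
  -- conclusion
  have hcnt : ∫⁻ ω₁, ∫⁻ ω₂, cnt adj (pt ω₁ ∪ pt ω₂) x ∂PL ρ₂ ∂PL ρ₁ ≤ X := by
    rw [← hSuper E ρ₁ ρ₂ (fun P => cnt adj P x) (hn measurable_const measurable_id)]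
    refine le_trans ?_ (hX x)
    rw [← camp_cnt hCamp hProb _ adj hadj x]
    exact lintegral_mono fun ω => le_add_self
  have hcm : ∀ ω₁ : Cfg E, Measurable fun ω₂ : Cfg E => 2 * cnt adj (pt ω₁ ∪ pt ω₂) x := by
    intro ω₁
    have : (fun ω₂ : Cfg E => 2 * cnt adj (pt ω₁ ∪ pt ω₂) x) =
        fun ω₂ => 2 * cnt adj (pt (a (ω₁, ω₂))) x := by
      funext ω₂
      rw [ha']
    rw [this]
    exact measurable_const.mul (hn measurable_const (ha.comp (measurable_const.prodMk measurable_id)))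
  have hcm2 : Measurable fun ω₁ : Cfg E => ∫⁻ ω₂, 2 * cnt adj (pt ω₁ ∪ pt ω₂) x ∂PL ρ₂ := by
    refine measurable_lint (f := fun (ω₁ : Cfg E) ω₂ => 2 * cnt adj (pt ω₁ ∪ pt ω₂) x) ?_
    simp only [← ha']
    exact measurable_const.mul (hn measurable_const ha)
  have hfinal : 2 * A ≤ 2 * (X + X * B) := by
    rw [step2, ← lintegral_const_mul' _ _ (by simp)]
    have h1 : ∫⁻ ω₁, 2 * ∫⁻ ω₂, ∑' z : (pt ω₂ : Set E), K1 z (pt ω₁)
        ({e | e ∈ pt ω₁ ∧ ¬ Con adj (pt ω₁) x e} ∪ (pt ω₂ \ {(z : E)})) ∂PL ρ₂ ∂PL ρ₁ ≤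
        ∫⁻ ω₁, ((∫⁻ ω₂, 2 * cnt adj (pt ω₁ ∪ pt ω₂) x ∂PL ρ₂) +
          ∫⁻ ω₂, ∑' z : (pt ω₂ : Set E), ∑' z' : (pt ω₂ : Set E),
            ind ((z : E) ≠ z') * K2 z z' (pt ω₁)
            ({e | e ∈ pt ω₁ ∧ ¬ Con adj (pt ω₁) x e} ∪ (pt ω₂ \ {(z : E), (z' : E)}))
            ∂PL ρ₂) ∂PL ρ₁ := by
      refine lintegral_mono_ae ?_
      filter_upwards [hdet] with ω₁ h
      rw [← lintegral_const_mul' _ _ (by simp), ← lintegral_add_left (hcm ω₁)]
      exact lintegral_mono_ae h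
    refine h1.trans ?_
    rw [lintegral_add_left hcm2, mul_add]
    refine add_le_add ?_ step3
    have h2 : ∀ ω₁ : Cfg E, ∫⁻ ω₂, 2 * cnt adj (pt ω₁ ∪ pt ω₂) x ∂PL ρ₂ =
        2 * ∫⁻ ω₂, cnt adj (pt ω₁ ∪ pt ω₂) x ∂PL ρ₂ := fun ω₁ =>
      lintegral_const_mul' _ _ (by simp)
    rw [lintegral_congr h2, lintegral_const_mul' _ _ (by simp)]
    exact mul_le_mul' le_rfl hcnt
  have hA2 : A ≤ X + X * B := by
    rwa [ENNReal.mul_le_mul_iff_right (by simp) (by simp)] at hfinal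
  calc ∫⁻ z, tp adj ρ₁ x z * (1 + ∫⁻ y, tp adj (ρ₁ + ρ₂) z y ∂(ρ₁ + ρ₂)) ∂ρ₂
      ≤ A + X * C := step1
    _ ≤ (X + X * B) + X * C := add_le_add hA2 le_rfl
    _ = X + X * C + X * B := by ring

end Pool.Agent.Lib.MP_5349a4_pr.H31
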